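import Pool.Agent.K1H37.Q3.Fa

/-! # The number of the ideals of odd norm (piece Q3-15) -/

set_option autoImplicit false

namespace Pool.Agent.K1H37.Q3

open Pool.Agent.K1H79.Q3 Finset NumberField Pool.Agent.TH847.LS
open scoped QuadraticAlgebra Classical nonZeroDivisors

variable {L : Type} [Field L] [NumberField L] (d : Dat L)

theorem mul_cj_mul (I J : Ideal (𝓞 L)) : (I * J) * cj d (I * J) = (I * cj d I) * (J * cj d J) := by
  rw [cj_mul]; ring

theorem R_unit (hN : S_NRM) {u : E} (hu : IsUnit u) : (R d u).card = 1 := by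
  rw [card_eq_one]
  refine ⟨⊤, ?_⟩
  have hs : Ideal.span {d.om u} = 1 := by
    rw [Ideal.one_eq_top, Ideal.span_singleton_eq_top]
    exact hu.map d.om
  ext I
  rw [mem_R d hN hu.ne_zero, mem_singleton, hs]
  constructor
  · intro h
    exact Ideal.isUnit_iff.1 (IsUnit.of_mul_eq_one _ h)
  · rintro rfl
    rw [cj, Ideal.map_top, Ideal.top_mul, Ideal.one_eq_top]

/-- the recursion for the number of the ideals with given relative norm -/
theorem R_rec (hN : S_NRM) {χ : E → ℝ} (hχ : IsQ d.α χ) {π n : E} (hπ : Prime π)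
    (ho : Odd (nm (π * n))) (r : ℝ) (h0 : ¬ π ∣ n → r = 0)
    (h1 : ∀ m, n = π * m → r = ((R d m).card : ℝ)) :
    ((R d (π * n)).card : ℝ) = (1 + χ π) * ((R d n).card : ℝ) - χ π * r := by
  have hpo : Odd (nm π) := odd_of_dvd (dvd_mul_right π n) ho
  have hno : Odd (nm n) := odd_of_dvd (Dvd.intro_left π rfl) ho
  have hn : n ≠ 0 := ne_zero_of_odd hno
  have hpn : π * n ≠ 0 := mul_ne_zero hπ.ne_zero hn
  have hs0 := span_om_ne d hπ.ne_zero
  obtain ⟨_, _, _, hp⟩ := hχ
  obtain ⟨q0, q1, q2⟩ := hp π hπ hpo
  rcases loc d hN hπ with hI | ⟨P, hP, hPn, hPa⟩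
  · -- inert
    have hns : ¬ ∃ x : E, π ∣ x ^ 2 - d.α := fun ⟨x, hx⟩ => inert_nonsq d hπ hpo hI x hx
    have hna : ¬ π ∣ d.α := fun h => hns ⟨0, by simpa using h⟩
    rw [q2 hna hns]
    have hdiv : ∀ I : Ideal (𝓞 L), I ∈ R d (π * n) →
        ∃ J : Ideal (𝓞 L), I = Ideal.span {d.om π} * J ∧
          Ideal.span {d.om π} * (J * cj d J) = Ideal.span {d.om n} := by
      intro I hI'
      rw [mem_R d hN hpn, span_om_mul] at hI'
      have h2 : Ideal.span {d.om π} ∣ I := by
        have h3 : Ideal.span {d.om π} ∣ I * cj d I := ⟨_, hI'⟩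
        rcases hI.dvd_or_dvd h3 with h | h
        · exact h
        · have := cj_dvd d h
          rwa [cj_cj, cj_om] at this
      obtain ⟨J, rfl⟩ := h2
      refine ⟨J, rfl, ?_⟩
      rw [mul_cj_mul, cj_om, mul_assoc] at hI'
      exact mul_left_cancel₀ hs0 hI'
    by_cases hd : π ∣ n
    · obtain ⟨m, rfl⟩ := hd
      have hm : m ≠ 0 := right_ne_zero_of_mul hn
      rw [h1 m rfl]
      have : R d (π * (π * m)) = (R d m).image (fun J => Ideal.span {d.om π} * J) := by
        ext I
        rw [mem_image]
        constructor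
        · intro hI'
          obtain ⟨J, rfl, hJ⟩ := hdiv I hI'
          rw [span_om_mul] at hJ
          exact ⟨J, (mem_R d hN hm).2 (mul_left_cancel₀ hs0 hJ), rfl⟩
        · rintro ⟨J, hJ, rfl⟩
          rw [mem_R d hN hm] at hJ
          rw [mem_R d hN hpn, mul_cj_mul, cj_om, hJ, span_om_mul, span_om_mul]
          ring
      rw [this, card_image_of_injective _ (mul_right_injective₀ hs0)]
      ring
    · rw [h0 hd]
      have : R d (π * n) = ∅ := by
        rw [eq_empty_iff_forall_notMem]
        intro I hI'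
        obtain ⟨J, _, hJ⟩ := hdiv I hI'
        exact hd (dvd_of_span d hπ.ne_zero ⟨_, hJ.symm⟩)
      rw [this]
      simp
  · have hP' := cj_prime d hP
    -- multiplication by `P` and by its conjugate
    have hmul : ∀ J ∈ R d n, P * J ∈ R d (π * n) := by
      intro J hJ
      rw [mem_R d hN hn] at hJ
      rw [mem_R d hN hpn, mul_cj_mul, hPn, hJ, span_om_mul]
    have hmul' : ∀ J ∈ R d n, cj d P * J ∈ R d (π * n) := by
      intro J hJ
      rw [mem_R d hN hn] at hJ
      rw [mem_R d hN hpn, mul_cj_mul, cj_cj, mul_comm (cj d P) P, hPn, hJ, span_om_mul]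
    have hdiv : ∀ J, P * J ∈ R d (π * n) → J ∈ R d n := by
      intro J hJ
      rw [mem_R d hN hpn, mul_cj_mul, hPn, span_om_mul] at hJ
      rw [mem_R d hN hn]
      exact mul_left_cancel₀ hs0 hJ
    have hdiv' : ∀ J, cj d P * J ∈ R d (π * n) → J ∈ R d n := by
      intro J hJ
      rw [mem_R d hN hpn, mul_cj_mul, cj_cj, mul_comm (cj d P) P, hPn, span_om_mul] at hJ
      rw [mem_R d hN hn]
      exact mul_left_cancel₀ hs0 hJ
    have hor : ∀ I ∈ R d (π * n), P ∣ I ∨ cj d P ∣ I := by
      intro I hI
      rw [mem_R d hN hpn, span_om_mul, ← hPn] at hI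
      have h3 : P ∣ I * cj d I := ⟨cj d P * Ideal.span {d.om n}, by rw [hI, mul_assoc]⟩
      rcases hP.dvd_or_dvd h3 with h | h
      · exact Or.inl h
      · have := cj_dvd d h
        rw [cj_cj] at this
        exact Or.inr this
    have hU : R d (π * n) = (R d n).image (fun J => P * J) ∪
        (R d n).image (fun J => cj d P * J) := by
      ext I
      rw [mem_union, mem_image, mem_image]
      constructor
      · intro hI
        rcases hor I hI with ⟨J, rfl⟩ | ⟨J, rfl⟩
        · exact Or.inl ⟨J, hdiv J hI, rfl⟩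
        · exact Or.inr ⟨J, hdiv' J hI, rfl⟩
      · rintro (⟨J, hJ, rfl⟩ | ⟨J, hJ, rfl⟩)
        · exact hmul J hJ
        · exact hmul' J hJ
    have hinj : Function.Injective (fun J : Ideal (𝓞 L) => P * J) :=
      mul_right_injective₀ hP.ne_zero
    have hinj' : Function.Injective (fun J : Ideal (𝓞 L) => cj d P * J) :=
      mul_right_injective₀ hP'.ne_zero
    by_cases hα : π ∣ d.α
    · -- ramified
      rw [q0 hα, hU, (ram_iff d hπ hpo hP hPn hPa).1 hα, union_self,
        card_image_of_injective _ hinj]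
      ring
    · -- split
      have hne : cj d P ≠ P := fun h => hα ((ram_iff d hπ hpo hP hPn hPa).2 h)
      rw [q1 hα (sq_of d hπ hP hPn hPa)]
      have hinter : ((((R d n).image (fun J => P * J) ∩
          (R d n).image (fun J => cj d P * J)).card : ℕ) : ℝ) = r := by
        have hdd : ∀ I ∈ (R d n).image (fun J => P * J) ∩ (R d n).image (fun J => cj d P * J),
            ∃ K : Ideal (𝓞 L), I = Ideal.span {d.om π} * K ∧
              Ideal.span {d.om π} * (K * cj d K) = Ideal.span {d.om n} := by
          intro I hI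
          rw [mem_inter, mem_image, mem_image] at hI
          obtain ⟨⟨J, hJ, rfl⟩, J', hJ', hJJ⟩ := hI
          have h3 : cj d P ∣ P * J := ⟨J', hJJ.symm⟩
          have h4 : ¬ cj d P ∣ P := by
            intro h
            apply hne
            have h5 : Associated (cj d P) P := hP'.associated_of_dvd hP h
            exact associated_iff_eq.1 h5
          obtain ⟨K, rfl⟩ := (hP'.dvd_or_dvd h3).resolve_left h4
          refine ⟨K, by rw [← hPn]; ring, ?_⟩
          rw [mem_R d hN hn, mul_cj_mul, cj_cj, mul_comm (cj d P) P, hPn] at hJ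
          exact hJ
        by_cases hd : π ∣ n
        · obtain ⟨m, rfl⟩ := hd
          have hm : m ≠ 0 := right_ne_zero_of_mul hn
          rw [h1 m rfl]
          have : (R d (π * m)).image (fun J => P * J) ∩ (R d (π * m)).image
              (fun J => cj d P * J) = (R d m).image (fun J => Ideal.span {d.om π} * J) := by
            ext I
            constructor
            · intro hI
              obtain ⟨K, rfl, hK⟩ := hdd I hI
              rw [mem_image]
              rw [span_om_mul] at hK
              exact ⟨K, (mem_R d hN hm).2 (mul_left_cancel₀ hs0 hK), rfl⟩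
            · intro hI
              rw [mem_image] at hI
              obtain ⟨K, hK, rfl⟩ := hI
              rw [mem_R d hN hm] at hK
              rw [mem_inter, mem_image, mem_image]
              refine ⟨⟨cj d P * K, ?_, by rw [← hPn]; ring⟩, P * K, ?_, by rw [← hPn]; ring⟩
              · rw [mem_R d hN hn, mul_cj_mul, cj_cj, mul_comm (cj d P) P, hPn, hK,
                  span_om_mul]
              · rw [mem_R d hN hn, mul_cj_mul, hPn, hK, span_om_mul]
          rw [this, card_image_of_injective _ (mul_right_injective₀ hs0)]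
        · rw [h0 hd]
          have : (R d n).image (fun J => P * J) ∩ (R d n).image (fun J => cj d P * J) = ∅ := by
            rw [eq_empty_iff_forall_notMem]
            intro I hI
            obtain ⟨K, _, hK⟩ := hdd I hI
            exact hd (dvd_of_span d hπ.ne_zero ⟨_, hK.symm⟩)
          rw [this]
          simp
      have h5 := card_union_add_card_inter ((R d n).image (fun J => P * J))
        ((R d n).image (fun J => cj d P * J))
      rw [← hU, card_image_of_injective _ hinj, card_image_of_injective _ hinj'] at h5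
      have h6 : ((R d (π * n)).card : ℝ) + r = (R d n).card + (R d n).card := by
        rw [← hinter]
        exact_mod_cast h5
      linarith

theorem t_CNTof : S_CNTof := by
  intro hN L _ _ d χ hχ T
  have hα : d.α ≠ 0 := d.sqf.ne_zero
  have hF : ∀ n : E, Odd (nm n) → (6 * (R d n).card : ℝ) = FS χ n := by
    refine FS_unique χ (chi_unit hα hχ) hχ.2.1 (fun n => (6 * (R d n).card : ℝ)) ?_ ?_
    · intro u hu
      rw [R_unit d hN hu]
      norm_num
    · intro π n hπ ho r h0 h1
      have := R_rec d hN hχ hπ ho (r / 6) (fun h => by rw [h0 h, zero_div])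
        (fun m hm => by rw [h1 m hm]; ring)
      rw [this]
      ring
  rw [RS_eq χ hχ.2.2.1 T]
  have e1 : ∑ n ∈ (EB T).filter (fun n => Odd (nm n)), FS χ n =
      6 * ((∑ n ∈ (EB T).filter (fun n => Odd (nm n)), (R d n).card : ℕ) : ℝ) := by
    rw [Nat.cast_sum, mul_sum]
    refine sum_congr rfl fun n hn => ?_
    rw [mem_filter] at hn
    exact (hF n hn.2).symm
  rw [e1]
  have e2 : ∑ n ∈ (EB T).filter (fun n => Odd (nm n)), (R d n).card =
      ∑ I ∈ (FI L T).filter (fun I => Odd (Ideal.absNorm I)), 6 := by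
    have h := sum_card_bipartiteAbove_eq_sum_card_bipartiteBelow
      (s := (EB T).filter (fun n => Odd (nm n)))
      (t := (FI L T).filter (fun I => Odd (Ideal.absNorm I)))
      (fun n I => I * cj d I = Ideal.span {d.om n})
    refine Eq.trans (sum_congr rfl fun n hn => ?_) (h.trans (sum_congr rfl fun I hI => ?_))
    · congr 1
      rw [mem_filter, mem_EB] at hn
      ext I
      rw [mem_R d hN hn.1.1, bipartiteAbove, mem_filter, mem_filter, mem_FI]
      constructor
      · intro h
        have h2 := norm_of d hN hn.1.1 h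
        rw [h2.1]
        exact ⟨⟨⟨hn.1.2, h2.2⟩, hn.2⟩, h⟩
      · exact fun h => h.2
    · rw [mem_filter, mem_FI] at hI
      obtain ⟨⟨h1, h2⟩, h3⟩ := hI
      obtain ⟨a, ha, ha1, ha2⟩ := hN L d I h2
      change I * cj d I = _ at ha2
      rw [← card_assoc T (mem_EB.2 ⟨ha, ha1.le.trans h1⟩)]
      congr 1
      ext n
      rw [bipartiteBelow, mem_filter, mem_filter, mem_filter, mem_EB, ha2]
      constructor
      · rintro ⟨⟨h4, h5⟩, h6⟩
        exact ⟨h4, ((span_eq_iff d ha h4.1).1 h6).symm⟩
      · rintro ⟨h4, h5⟩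
        refine ⟨⟨h4, ?_⟩, (span_eq_iff d ha h4.1).2 h5.symm⟩
        rw [nm_assoc h5, ha1]
        exact h3
  rw [e2, sum_const, smul_eq_mul, OddC]
  push_cast
  ring

end Pool.Agent.K1H37.Q3
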