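import Pool.Agent.K1H79.Q3.StmA

/-! # Arithmetic of `ℤ[ω]`: divisor sums (piece Q3-15) -/

set_option autoImplicit false

namespace Pool.Agent.K1H37.Q3

open Pool.Agent.K1H79.Q3 Finset
open scoped QuadraticAlgebra Classical

theorem card_quot (π : E) : Nat.card (E ⧸ Ideal.span {π}) = nm π := by
  have h : Ideal.absNorm (Ideal.span {π} : Ideal E) = (Algebra.norm ℤ π).natAbs :=
    Ideal.absNorm_span_singleton π
  have h2 : Algebra.norm ℤ π = QuadraticAlgebra.norm π := by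
    rw [← QuadraticAlgebra.det_toLinearMap_eq_norm]
    rfl
  rw [h2] at h
  exact h

theorem nm_dvd {a b : E} (h : a ∣ b) : nm a ∣ nm b := by
  obtain ⟨c, rfl⟩ := h
  exact ⟨nm c, nm_mul a c⟩

theorem odd_of_dvd {a b : E} (h : a ∣ b) (hb : Odd (nm b)) : Odd (nm a) :=
  Odd.of_dvd_nat hb (nm_dvd h)

theorem ne_zero_of_odd {a : E} (h : Odd (nm a)) : a ≠ 0 := by
  rintro rfl
  rw [nm_zero] at h
  exact absurd h (by decide)

theorem EB_one : EB 1 = {⟨1, 0⟩, ⟨-1, 0⟩, ⟨0, 1⟩, ⟨0, -1⟩, ⟨1, 1⟩, ⟨-1, -1⟩} := by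
  ext z
  rw [mem_EB]
  constructor
  · rintro ⟨h0, h1⟩
    have h2 := nm_cast z
    have h3 : nm z = 1 := le_antisymm h1 (nm_pos h0)
    rw [h3] at h2
    push_cast at h2
    have b1 : z.re ^ 2 ≤ 1 := by nlinarith [sq_nonneg (2 * z.im - z.re)]
    have b2 : z.im ^ 2 ≤ 1 := by nlinarith [sq_nonneg (2 * z.re - z.im)]
    have c1 : z.re ≤ 1 := by nlinarith
    have c2 : -1 ≤ z.re := by nlinarith
    have c3 : z.im ≤ 1 := by nlinarith
    have c4 : -1 ≤ z.im := by nlinarith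
    obtain ⟨x, y⟩ := z
    simp only at c1 c2 c3 c4 h2
    simp only [mem_insert, mem_singleton, QuadraticAlgebra.mk.injEq]
    clear b1 b2 h0 h1 h3
    have d1 : x = -1 ∨ x = 0 ∨ x = 1 := by omega
    have d2 : y = -1 ∨ y = 0 ∨ y = 1 := by omega
    rcases d1 with d1 | d1 | d1 <;> rcases d2 with d2 | d2 | d2 <;> rw [d1, d2] at h2 <;>
      norm_num at h2 <;> omega
  · intro h
    simp only [mem_insert, mem_singleton] at h
    rcases h with rfl | rfl | rfl | rfl | rfl | rfl <;>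
      refine ⟨fun h => by simpa [nm, norm_eq] using congrArg nm h, ?_⟩ <;> simp [nm, norm_eq]

theorem card_EB_one : (EB 1).card = 6 := by
  rw [EB_one]
  rfl

theorem mem_EB_one {u : E} : u ∈ EB 1 ↔ IsUnit u := by
  rw [mem_EB, isUnit_iff']
  constructor
  · rintro ⟨h0, h1⟩
    exact le_antisymm h1 (nm_pos h0)
  · intro h
    refine ⟨?_, h.le⟩
    rintro rfl
    rw [nm_zero] at h
    exact absurd h (by decide)

/-- the associates of an element -/
theorem card_assoc (T : ℕ) {a : E} (ha : a ∈ EB T) :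
    ((EB T).filter fun n => Associated n a).card = 6 := by
  rw [mem_EB] at ha
  rw [← card_EB_one, ← card_image_of_injective (EB 1) (mul_left_injective₀ ha.1)]
  congr 1
  ext n
  rw [mem_filter, mem_image]
  constructor
  · rintro ⟨_, h⟩
    obtain ⟨u, hu⟩ := h.symm
    exact ⟨u, mem_EB_one.2 u.isUnit, by rw [← hu]; exact mul_comm _ _⟩
  · rintro ⟨u, hu, rfl⟩
    rw [mem_EB_one] at hu
    refine ⟨mem_EB.2 ⟨mul_ne_zero hu.ne_zero ha.1, ?_⟩, ?_⟩
    · change nm (u * a) ≤ T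
      rw [nm_mul, isUnit_iff'.1 hu, one_mul]
      exact ha.2
    · exact (associated_unit_mul_left a u hu)

/-- the divisors -/
noncomputable def D (n : E) : Finset E := (EB (nm n)).filter fun d => d ∣ n

theorem mem_D {n d : E} (hn : n ≠ 0) : d ∈ D n ↔ d ∣ n := by
  rw [D, mem_filter, and_iff_right_iff_imp]
  intro h
  exact mem_EB.2 ⟨ne_zero_of_dvd_ne_zero hn h, Nat.le_of_dvd (nm_pos hn) (nm_dvd h)⟩

/-- the sum over the divisors -/
noncomputable def FS (χ : E → ℝ) (n : E) : ℝ := ∑ d ∈ D n, χ d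

theorem FS_unit (χ : E → ℝ) (hu : ∀ u : E, IsUnit u → χ u = 1) {n : E} (hn : IsUnit n) :
    FS χ n = 6 := by
  have h1 : nm n = 1 := isUnit_iff'.1 hn
  have h2 : D n = EB 1 := by
    rw [D, h1]
    refine filter_true_of_mem fun d hd => ?_
    exact (mem_EB_one.1 hd).dvd
  rw [FS, h2, sum_congr rfl fun d hd => hu d (mem_EB_one.1 hd)]
  simp [card_EB_one]

/-- the recursion -/
theorem FS_rec (χ : E → ℝ) (hm : ∀ x y, χ (x * y) = χ x * χ y) {π n : E} (hπ : Prime π)
    (hn : n ≠ 0) (r : ℝ) (h0 : ¬ π ∣ n → r = 0) (h1 : ∀ m, n = π * m → r = FS χ m) :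
    FS χ (π * n) = (1 + χ π) * FS χ n - χ π * r := by
  have hpn : π * n ≠ 0 := mul_ne_zero hπ.ne_zero hn
  have hinj : Function.Injective (fun d : E => π * d) := mul_right_injective₀ hπ.ne_zero
  have hU : D (π * n) = D n ∪ (D n).image (fun d => π * d) := by
    ext d
    rw [mem_union, mem_image, mem_D hpn, mem_D hn]
    constructor
    · intro h
      by_cases hd : π ∣ d
      · obtain ⟨e, rfl⟩ := hd
        right
        exact ⟨e, (mem_D hn).2 ((mul_dvd_mul_iff_left hπ.ne_zero).1 h), rfl⟩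
      · left
        exact (IsCoprime.symm ((hπ.irreducible.coprime_iff_not_dvd).2 hd)).dvd_of_dvd_mul_left h
    · rintro (h | ⟨e, he, rfl⟩)
      · exact h.mul_left π
      · exact mul_dvd_mul_left π ((mem_D hn).1 he)
  have hI : ∑ d ∈ D n ∩ (D n).image (fun d => π * d), χ d = χ π * r := by
    by_cases hd : π ∣ n
    · obtain ⟨m, rfl⟩ := hd
      have hm0 : m ≠ 0 := right_ne_zero_of_mul hn
      rw [h1 m rfl, FS, mul_sum]
      have : D (π * m) ∩ (D (π * m)).image (fun d => π * d) = (D m).image (fun d => π * d) := by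
        ext d
        rw [mem_inter, mem_image, mem_image, mem_D hn]
        constructor
        · rintro ⟨h, e, he, rfl⟩
          exact ⟨e, (mem_D hm0).2 ((mul_dvd_mul_iff_left hπ.ne_zero).1 h), rfl⟩
        · rintro ⟨e, he, rfl⟩
          rw [mem_D hm0] at he
          exact ⟨mul_dvd_mul_left π he, e, (mem_D hn).2 (he.mul_left π), rfl⟩
      rw [this, sum_image fun a _ b _ h => hinj h]
      exact sum_congr rfl fun d _ => hm π d
    · rw [h0 hd, mul_zero]
      refine sum_eq_zero fun d hd' => ?_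
      rw [mem_inter, mem_image, mem_D hn] at hd'
      obtain ⟨h, e, he, rfl⟩ := hd'
      exact absurd ((dvd_mul_right π e).trans h) hd
  have h2 := sum_union_inter (f := χ) (s₁ := D n) (s₂ := (D n).image (fun d => π * d))
  rw [← hU, hI, sum_image fun a _ b _ h => hinj h, sum_congr rfl fun d _ => hm π d,
    ← mul_sum] at h2
  change FS χ (π * n) + _ = FS χ n + χ π * FS χ n at h2
  linarith

/-- a function satisfying the recursion is the divisor sum -/
theorem FS_unique (χ : E → ℝ) (hu : ∀ u : E, IsUnit u → χ u = 1)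
    (hm : ∀ x y, χ (x * y) = χ x * χ y) (f : E → ℝ) (fu : ∀ u : E, IsUnit u → f u = 6)
    (fr : ∀ π n : E, Prime π → Odd (nm (π * n)) → ∀ r : ℝ, (¬ π ∣ n → r = 0) →
      (∀ m, n = π * m → r = f m) → f (π * n) = (1 + χ π) * f n - χ π * r) :
    ∀ n : E, Odd (nm n) → f n = FS χ n := by
  have main : ∀ N : ℕ, ∀ n : E, nm n = N → Odd (nm n) → f n = FS χ n := by
    intro N
    induction N using Nat.strong_induction_on with
    | _ N ih =>
      intro n hN ho
      by_cases hun : IsUnit n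
      · rw [fu n hun, FS_unit χ hu hun]
      have hn0 := ne_zero_of_odd ho
      obtain ⟨π, hπ', n1, rfl⟩ := WfDvdMonoid.exists_irreducible_factor hun hn0
      have hπ : Prime π := hπ'.prime
      have hn1 : n1 ≠ 0 := right_ne_zero_of_mul hn0
      have hlt : ∀ m : E, m ≠ 0 → nm m < nm (π * m) := by
        intro m hm0
        rw [nm_mul]
        have h1 : nm π ≠ 1 := fun h => hπ.not_isUnit (isUnit_iff'.2 h)
        have h2 := nm_pos hπ.ne_zero
        have h3 := nm_pos hm0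
        nlinarith [show 2 ≤ nm π by omega]
      have e1 : f n1 = FS χ n1 :=
        ih _ (hN ▸ hlt n1 hn1) n1 rfl (odd_of_dvd (Dvd.intro_left π rfl) ho)
      by_cases hd : π ∣ n1
      · obtain ⟨m, rfl⟩ := hd
        have hm0 : m ≠ 0 := right_ne_zero_of_mul hn1
        have e2 : f m = FS χ m :=
          ih _ (hN ▸ (hlt m hm0).trans (hlt _ hn1)) m rfl
            (odd_of_dvd ((Dvd.intro_left π rfl).mul_left π) ho)
        rw [fr π (π * m) hπ ho (f m) (fun h => absurd (dvd_mul_right π m) h)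
          (fun m' h => by rw [mul_left_cancel₀ hπ.ne_zero h]),
          FS_rec χ hm hπ hn1 (f m) (fun h => absurd (dvd_mul_right π m) h)
          (fun m' h => by rw [← mul_left_cancel₀ hπ.ne_zero h, e2]), e1]
      · rw [fr π n1 hπ ho 0 (fun _ => rfl) (fun m h => absurd ⟨m, h⟩ hd),
          FS_rec χ hm hπ hn1 0 (fun _ => rfl) (fun m h => absurd ⟨m, h⟩ hd), e1]
  intro n ho
  exact main _ n rfl ho

/-- the sum `RS` is the sum of the divisor sums -/
theorem RS_eq (χ : E → ℝ) (h2 : ∀ z, ¬ Odd (nm z) → χ z = 0) (T : ℕ) :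
    RS χ T = ∑ n ∈ (EB T).filter (fun n => Odd (nm n)), FS χ n := by
  have e1 : RS χ T = ∑ d ∈ (EB T).filter (fun n => Odd (nm n)),
      ∑ e ∈ (EB (T / nm d)).filter (fun e => Odd (nm e)), χ d := by
    rw [sum_filter, RS]
    refine sum_congr rfl fun d _ => ?_
    split_ifs with h
    · rw [sum_const, nsmul_eq_mul, mul_comm]
    · rw [h2 d h, zero_mul]
  rw [e1]
  unfold FS
  rw [sum_sigma', sum_sigma']
  refine sum_bij' (fun p _ => ⟨p.1 * p.2, p.1⟩)
    (fun p _ => ⟨p.2, if h : p.2 ∣ p.1 then h.choose else 0⟩) ?_ ?_ ?_ ?_ ?_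
  · rintro ⟨d, e⟩ h
    simp only [mem_sigma, mem_filter, mem_EB] at h ⊢
    obtain ⟨⟨⟨hd0, hdT⟩, hdo⟩, ⟨he0, heT⟩, heo⟩ := h
    refine ⟨⟨⟨mul_ne_zero hd0 he0, ?_⟩, ?_⟩, (mem_D (mul_ne_zero hd0 he0)).2 (dvd_mul_right _ _)⟩
    · rw [nm_mul]
      exact (Nat.mul_le_mul_left _ heT).trans (Nat.mul_div_le _ _)
    · rw [nm_mul]
      exact hdo.mul heo
  · rintro ⟨n, d⟩ h
    simp only [mem_sigma, mem_filter] at h ⊢
    obtain ⟨⟨hnT, hno⟩, hd⟩ := h
    rw [mem_EB] at hnT
    rw [mem_D hnT.1] at hd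
    rw [dif_pos hd]
    obtain ⟨e, he⟩ : ∃ e, e = hd.choose := ⟨_, rfl⟩
    have hs : n = d * e := by rw [he]; exact hd.choose_spec
    rw [← he]
    subst hs
    have hd0 : d ≠ 0 := left_ne_zero_of_mul hnT.1
    have he0 : e ≠ 0 := right_ne_zero_of_mul hnT.1
    rw [mem_EB, mem_EB]
    rw [nm_mul] at hnT hno
    have hpd := nm_pos hd0
    have hpe := nm_pos he0
    refine ⟨⟨⟨hd0, ?_⟩, (Nat.odd_mul.1 hno).1⟩, ⟨he0, ?_⟩, (Nat.odd_mul.1 hno).2⟩
    · exact (Nat.le_mul_of_pos_right _ hpe).trans hnT.2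
    · rw [Nat.le_div_iff_mul_le hpd, mul_comm]
      exact hnT.2
  · rintro ⟨d, e⟩ h
    simp only [mem_sigma, mem_filter, mem_EB] at h
    have hd : d ∣ d * e := dvd_mul_right d e
    simp only
    rw [dif_pos hd]
    congr 1
    exact (mul_left_cancel₀ h.1.1.1 hd.choose_spec).symm
  · rintro ⟨n, d⟩ h
    simp only [mem_sigma, mem_filter] at h
    obtain ⟨⟨hnT, hno⟩, hd⟩ := h
    rw [mem_EB] at hnT
    rw [mem_D hnT.1] at hd
    simp only
    rw [dif_pos hd, ← hd.choose_spec]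
  · rintro ⟨d, e⟩ _
    rfl

/-- `χ` is `1` at the units -/
theorem chi_unit {α : E} (hα : α ≠ 0) {χ : E → ℝ} (h : IsQ α χ) (u : E) (hu : IsUnit u) :
    χ u = 1 := by
  obtain ⟨h1, hm, h2, hp⟩ := h
  -- an odd prime not dividing `α`
  obtain ⟨π, hπ, hodd, hna⟩ : ∃ π : E, Prime π ∧ Odd (nm π) ∧ ¬ π ∣ α := by
    have e1 : nm (1 + 2 * (α * star α)) = (1 + 2 * nm α) ^ 2 := by
      have e2 : α * star α = ((nm α : ℤ) : E) := by
        rw [← QuadraticAlgebra.algebraMap_norm_eq_mul_star, nm,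
          Int.natAbs_of_nonneg (norm_nonneg' α)]
        rfl
      have e3 : (1 + 2 * (α * star α) : E) = ((1 + 2 * nm α : ℕ) : E) := by
        rw [e2]; push_cast; ring
      rw [e3, nm, QuadraticAlgebra.norm_natCast, Int.natAbs_pow, Int.natAbs_natCast]
    have hpos := nm_pos hα
    have hnu : ¬ IsUnit (1 + 2 * (α * star α)) := by
      rw [isUnit_iff', e1]
      nlinarith
    have hn0 : (1 + 2 * (α * star α)) ≠ 0 := by
      intro h
      rw [h, nm_zero] at e1
      nlinarith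
    obtain ⟨π, hπ', hd⟩ := WfDvdMonoid.exists_irreducible_factor hnu hn0
    refine ⟨π, hπ'.prime, odd_of_dvd hd ?_, ?_⟩
    · rw [e1]
      exact Odd.pow (by rw [add_comm]; exact ⟨nm α, rfl⟩)
    · intro hda
      have : π ∣ 1 := (dvd_add_left (Dvd.dvd.mul_left (hda.mul_right (star α)) 2)).1 hd
      exact hπ'.not_isUnit (isUnit_of_dvd_one this)
  have hπu : Prime (π * u) := by
    refine (Associated.prime_iff ?_).1 hπ
    exact (associated_mul_unit_right π u hu)
  have hdu : ∀ x : E, π * u ∣ x ↔ π ∣ x := fun x => hu.mul_right_dvd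
  have hne : χ π ≠ 0 := by
    obtain ⟨_, q1, q2⟩ := hp π hπ hodd
    by_cases hx : ∃ x : E, π ∣ x ^ 2 - α
    · rw [q1 hna hx]; exact one_ne_zero
    · rw [q2 hna hx]; norm_num
  have heq : χ (π * u) = χ π := by
    obtain ⟨_, q1, q2⟩ := hp π hπ hodd
    obtain ⟨_, q1', q2'⟩ := hp (π * u) hπu (by rw [nm_mul, isUnit_iff'.1 hu, mul_one]; exact hodd)
    simp only [hdu] at q1' q2'
    by_cases hx : ∃ x : E, π ∣ x ^ 2 - α
    · rw [q1 hna hx, q1' hna hx]
    · rw [q2 hna hx, q2' hna hx]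
  rw [hm] at heq
  exact mul_left_cancel₀ hne (by rw [heq, mul_one])

end Pool.Agent.K1H37.Q3
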