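import Pool.Agent.K1H37.Q3.Ea
import Pool.Agent.K1H79.Q3.StmB

/-! # The ideals of a quadratic extension of `ℚ(ω)` with a given relative norm (piece Q3-15) -/

set_option autoImplicit false

namespace Pool.Agent.K1H37.Q3

open Pool.Agent.K1H79.Q3 Finset NumberField Pool.Agent.TH847.LS
open scoped QuadraticAlgebra Classical nonZeroDivisors

variable {L : Type} [Field L] [NumberField L] (d : Dat L)

theorem sg_om (z : E) : d.sg (d.om z) = d.om z := by
  apply RingOfIntegers.ext
  exact d.σo z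

theorem sg_s : d.sg d.s = -d.s := by
  apply RingOfIntegers.ext
  exact d.σs

theorem sg_sg (x : 𝓞 L) : d.sg (d.sg x) = x := by
  apply RingOfIntegers.ext
  exact d.σσ x

/-- the conjugate ideal -/
noncomputable def cj (I : Ideal (𝓞 L)) : Ideal (𝓞 L) := I.map (d.sg : 𝓞 L →+* 𝓞 L)

theorem mem_cj {I : Ideal (𝓞 L)} {x : 𝓞 L} : x ∈ cj d I ↔ d.sg x ∈ I := by
  rw [cj]
  constructor
  · intro h
    obtain ⟨y, hy, rfl⟩ := (Ideal.mem_map_of_equiv d.sg x).1 h
    rw [sg_sg]
    exact hy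
  · intro h
    exact (Ideal.mem_map_of_equiv d.sg x).2 ⟨_, h, sg_sg d x⟩

theorem cj_cj (I : Ideal (𝓞 L)) : cj d (cj d I) = I := by
  ext x
  rw [mem_cj, mem_cj, sg_sg]

theorem cj_mul (I J : Ideal (𝓞 L)) : cj d (I * J) = cj d I * cj d J := Ideal.map_mul _ _ _

theorem cj_om (z : E) : cj d (Ideal.span {d.om z}) = Ideal.span {d.om z} := by
  rw [cj, Ideal.map_span, Set.image_singleton]
  change Ideal.span {d.sg (d.om z)} = _
  rw [sg_om]

theorem cj_dvd {I J : Ideal (𝓞 L)} (h : I ∣ J) : cj d I ∣ cj d J := by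
  obtain ⟨K, rfl⟩ := h
  exact ⟨cj d K, cj_mul d I K⟩

theorem cj_prime {P : Ideal (𝓞 L)} (h : Prime P) : Prime (cj d P) := by
  have h1 : P ≠ 0 := h.ne_zero
  have h2 := Ideal.isPrime_of_prime h
  refine Ideal.prime_of_isPrime ?_ ?_
  · intro h3
    apply h1
    rw [← cj_cj d P, h3]
    exact Ideal.map_bot
  · exact Ideal.map_isPrime_of_equiv d.sg

theorem om_inj : Function.Injective d.om := by
  rw [injective_iff_map_eq_zero]
  intro z hz
  by_contra h0
  have h1 : d.om (z * star z) = ((nm z : ℕ) : 𝓞 L) := by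
    rw [← QuadraticAlgebra.algebraMap_norm_eq_mul_star]
    have e : ((QuadraticAlgebra.norm z : ℤ) : E) = ((nm z : ℕ) : E) := by
      rw [nm, ← Int.cast_natCast (R := E), Int.natAbs_of_nonneg (norm_nonneg' z)]
    change d.om ((QuadraticAlgebra.norm z : ℤ) : E) = _
    rw [e, map_natCast]
  rw [map_mul, hz, zero_mul] at h1
  exact (nm_pos h0).ne' (by exact_mod_cast h1.symm)

theorem dvd_of_om {a n : E} (hn : n ≠ 0) (h : d.om n ∣ d.om a) : n ∣ a := by
  obtain ⟨y, hy⟩ := h
  letI : Algebra E L := ((algebraMap (𝓞 L) L).comp d.om).toAlgebra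
  have hdef : ∀ z : E, algebraMap E L z = ((d.om z : 𝓞 L) : L) := fun z => rfl
  have hf : Function.Injective (algebraMap E L) := by
    intro x y hxy
    exact om_inj d (RingOfIntegers.ext hxy)
  haveI : FaithfulSMul E L := (faithfulSMul_iff_algebraMap_injective E L).2 hf
  letI : Algebra (FractionRing E) L := FractionRing.liftAlgebra E L
  haveI : IsScalarTower E (FractionRing E) L := FractionRing.isScalarTower_liftAlgebra E L
  have hn' : algebraMap E (FractionRing E) n ≠ 0 := by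
    rw [Ne, map_eq_zero_iff _ (IsFractionRing.injective E (FractionRing E))]
    exact hn
  have hq : algebraMap (FractionRing E) L (algebraMap E (FractionRing E) a /
      algebraMap E (FractionRing E) n) = (y : L) := by
    rw [map_div₀, ← IsScalarTower.algebraMap_apply, ← IsScalarTower.algebraMap_apply,
      div_eq_iff (by rw [Ne, map_eq_zero_iff _ hf]; exact hn), hdef, hdef, hy]
    push_cast
    ring
  have hi : IsIntegral E (y : L) := IsIntegral.tower_top (RingOfIntegers.isIntegral_coe y)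
  rw [← hq] at hi
  have hi2 := (isIntegral_algebraMap_iff (algebraMap (FractionRing E) L).injective).1 hi
  obtain ⟨z, hz⟩ := IsIntegrallyClosed.isIntegral_iff.1 hi2
  rw [eq_div_iff hn', ← map_mul] at hz
  exact ⟨z, by rw [← IsFractionRing.injective E (FractionRing E) hz, mul_comm]⟩

theorem dvd_of_span {a n : E} (hn : n ≠ 0)
    (h : Ideal.span {d.om n} ∣ Ideal.span {d.om a}) : n ∣ a :=
  dvd_of_om d hn (Ideal.span_singleton_le_span_singleton.1 (Ideal.dvd_iff_le.1 h))

theorem span_om_ne {n : E} (hn : n ≠ 0) : Ideal.span {d.om n} ≠ 0 := by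
  rw [Ne, Ideal.zero_eq_bot, Ideal.span_singleton_eq_bot]
  exact fun h => hn (om_inj d (by rw [h, map_zero]))

theorem span_om_mul (a b : E) :
    Ideal.span {d.om (a * b)} = Ideal.span {d.om a} * Ideal.span {d.om b} := by
  rw [map_mul, Ideal.span_singleton_mul_span_singleton]

theorem span_eq_iff {a n : E} (ha : a ≠ 0) (hn : n ≠ 0) :
    Ideal.span {d.om a} = Ideal.span {d.om n} ↔ Associated a n := by
  constructor
  · intro h
    exact associated_of_dvd_dvd (dvd_of_span d ha h.dvd) (dvd_of_span d hn h.symm.dvd)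
  · intro h
    exact Ideal.span_singleton_eq_span_singleton.2 (h.map d.om)

theorem nm_assoc {a b : E} (h : Associated a b) : nm a = nm b := by
  obtain ⟨u, rfl⟩ := h
  rw [nm_mul, isUnit_iff'.1 u.isUnit, mul_one]

theorem norm_of (hN : S_NRM) {n : E} (hn : n ≠ 0) {I : Ideal (𝓞 L)}
    (h : I * cj d I = Ideal.span {d.om n}) : Ideal.absNorm I = nm n ∧ I ≠ ⊥ := by
  have h0 : I ≠ ⊥ := by
    rintro rfl
    rw [Ideal.bot_mul] at h
    exact span_om_ne d hn h.symm
  obtain ⟨a, ha, h1, h2⟩ := hN L d I h0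
  change I * cj d I = _ at h2
  rw [h] at h2
  exact ⟨by rw [← h1, nm_assoc ((span_eq_iff d hn ha).1 h2)], h0⟩

/-- the ideals with relative norm `n` -/
noncomputable def R (n : E) : Finset (Ideal (𝓞 L)) :=
  (FI L (nm n)).filter fun I => I * cj d I = Ideal.span {d.om n}

theorem mem_R (hN : S_NRM) {n : E} (hn : n ≠ 0) {I : Ideal (𝓞 L)} :
    I ∈ R d n ↔ I * cj d I = Ideal.span {d.om n} := by
  rw [R, mem_filter, and_iff_right_iff_imp]
  intro h
  rw [mem_FI]
  exact ⟨(norm_of d hN hn h).1.le, (norm_of d hN hn h).2⟩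

theorem not_dvd_two {π : E} (hπ : Prime π) (ho : Odd (nm π)) : ¬ π ∣ 2 := by
  intro h
  have h1 := nm_dvd h
  have h2 : nm (2 : E) = 4 := by simp [nm, norm_eq]
  rw [h2, show (4 : ℕ) = 2 ^ 2 by norm_num] at h1
  obtain ⟨i, _, hi⟩ := (Nat.dvd_prime_pow Nat.prime_two).1 h1
  rw [hi] at ho
  rcases Nat.eq_zero_or_pos i with rfl | hpos
  · exact hπ.not_isUnit (isUnit_iff'.2 (by rw [hi]; rfl))
  · exact absurd ho (by rw [Nat.not_odd_iff_even]; exact (even_two).pow_of_ne_zero hpos.ne')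

theorem om_dvd_pow_two {π : E} (hπ : Prime π) (ho : Odd (nm π))
    (h : d.om π ∣ 2 * d.s) : False := by
  have h1 : d.om (π ^ 2) ∣ d.om (4 * d.α) := by
    have h2 : (d.om π) ^ 2 ∣ (2 * d.s) ^ 2 := pow_dvd_pow_of_dvd h 2
    rw [map_pow, map_mul, ← d.sq, map_ofNat]
    convert h2 using 1
    ring
  have h2 := dvd_of_om d (pow_ne_zero 2 hπ.ne_zero) h1
  have h3 : IsCoprime (π ^ 2) (4 : E) := by
    rw [show (4 : E) = 2 ^ 2 by norm_num]
    exact ((hπ.irreducible.coprime_iff_not_dvd).2 (not_dvd_two hπ ho)).pow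
  have h4 := h3.dvd_of_dvd_mul_left h2
  rw [pow_two] at h4
  exact hπ.not_isUnit (d.sqf π h4)

/-- inert primes -/
theorem inert_nonsq {π : E} (hπ : Prime π) (ho : Odd (nm π))
    (hP : Prime (Ideal.span {d.om π})) (x : E) (hx : π ∣ x ^ 2 - d.α) : False := by
  have hp : Prime (d.om π) := (Ideal.prime_span_singleton_iff).1 hP
  have h1 : d.om π ∣ (d.om x - d.s) * (d.om x + d.s) := by
    have e : (d.om x - d.s) * (d.om x + d.s) = d.om (x ^ 2 - d.α) := by
      rw [map_sub, map_pow, ← d.sq]; ring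
    rw [e]
    exact map_dvd d.om hx
  have h2 : ∀ y : 𝓞 L, d.om π ∣ y → d.om π ∣ d.sg y := by
    rintro y ⟨z, rfl⟩
    rw [map_mul, sg_om]
    exact dvd_mul_right _ _
  have h3 : d.om π ∣ d.om x - d.s ∧ d.om π ∣ d.om x + d.s := by
    rcases hp.dvd_or_dvd h1 with h | h
    · refine ⟨h, ?_⟩
      have := h2 _ h
      rwa [map_sub, sg_om, sg_s, sub_neg_eq_add] at this
    · refine ⟨?_, h⟩
      have := h2 _ h
      rwa [map_add, sg_om, sg_s, ← sub_eq_add_neg] at this
  refine om_dvd_pow_two d hπ ho ?_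
  have := dvd_sub h3.2 h3.1
  convert this using 1
  ring

theorem om_mem {π x : E} (hπ : Prime π) {P : Ideal (𝓞 L)}
    (h : P * cj d P = Ideal.span {d.om π}) : d.om x ∈ P ↔ π ∣ x := by
  constructor
  · intro hx
    have h1 : P ∣ Ideal.span {d.om x} := by
      rw [Ideal.dvd_iff_le, Ideal.span_singleton_le_iff_mem]; exact hx
    have h2 : cj d P ∣ Ideal.span {d.om x} := by
      rw [← cj_om d x]; exact cj_dvd d h1
    have h3 := mul_dvd_mul h1 h2
    rw [h, ← span_om_mul] at h3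
    have h4 := dvd_of_span d hπ.ne_zero h3
    exact (hπ.dvd_or_dvd h4).elim id id
  · rintro ⟨y, rfl⟩
    rw [map_mul]
    refine P.mul_mem_right _ ?_
    have : d.om π ∈ P * cj d P := by rw [h]; exact Ideal.mem_span_singleton_self _
    have h5 : P * cj d P ≤ P := Ideal.mul_le_left
    exact h5 this

theorem exists_x {π : E} (hπ : Prime π) {P : Ideal (𝓞 L)} (hP : Prime P)
    (h : P * cj d P = Ideal.span {d.om π}) (hn : Ideal.absNorm P = nm π) :
    ∃ x : E, d.s - d.om x ∈ P := by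
  have hc : (P.comap d.om) = Ideal.span {π} := by
    ext x
    rw [Ideal.mem_comap, om_mem d hπ h, Ideal.mem_span_singleton]
  let f : E ⧸ Ideal.span {π} →+* 𝓞 L ⧸ P := Ideal.quotientMap P d.om hc.ge
  have hinj : Function.Injective f := Ideal.quotientMap_injective' hc.le
  haveI : Finite (𝓞 L ⧸ P) := Ideal.finiteQuotientOfFreeOfNeBot P hP.ne_zero
  have hcard : Nat.card (𝓞 L ⧸ P) ≤ Nat.card (E ⧸ Ideal.span {π}) := by
    rw [card_quot, ← hn]
    exact le_of_eq rfl
  have hb := hinj.bijective_of_nat_card_le hcard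
  obtain ⟨y, hy⟩ := hb.2 (Ideal.Quotient.mk P d.s)
  obtain ⟨x, rfl⟩ := Ideal.Quotient.mk_surjective y
  refine ⟨x, ?_⟩
  rw [← Ideal.Quotient.eq, ← hy]
  rfl

theorem sq_of {π : E} (hπ : Prime π) {P : Ideal (𝓞 L)} (hP : Prime P)
    (h : P * cj d P = Ideal.span {d.om π}) (hn : Ideal.absNorm P = nm π) :
    ∃ x : E, π ∣ x ^ 2 - d.α := by
  obtain ⟨x, hx⟩ := exists_x d hπ hP h hn
  refine ⟨x, (om_mem d hπ h).1 ?_⟩
  have e : d.om (x ^ 2 - d.α) = -(d.s + d.om x) * (d.s - d.om x) := by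
    rw [map_sub, map_pow, ← d.sq]; ring
  rw [e]
  exact P.mul_mem_left _ hx

theorem ram_iff {π : E} (hπ : Prime π) (ho : Odd (nm π)) {P : Ideal (𝓞 L)} (hP : Prime P)
    (h : P * cj d P = Ideal.span {d.om π}) (hn : Ideal.absNorm P = nm π) :
    π ∣ d.α ↔ cj d P = P := by
  have hPp := Ideal.isPrime_of_prime hP
  constructor
  · intro hα
    have h1 : d.s ^ 2 ∈ P := by rw [d.sq]; exact (om_mem d hπ h).2 hα
    have h2 : d.s ∈ P := hPp.mem_of_pow_mem 2 h1
    by_contra hne
    have h3 : d.s ∈ cj d P := by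
      rw [mem_cj, sg_s]
      exact P.neg_mem h2
    have hcop : IsCoprime P (cj d P) := by
      have m1 : P.IsMaximal := hPp.isMaximal hP.ne_zero
      have hcp := cj_prime d hP
      have m2 : (cj d P).IsMaximal := (Ideal.isPrime_of_prime hcp).isMaximal hcp.ne_zero
      exact Ideal.isCoprime_iff_sup_eq.2 (m1.coprime_of_ne m2 (fun e => hne e.symm))
    have h4 : d.s ∈ P * cj d P := by
      rw [Ideal.mul_eq_inf_of_isCoprime hcop]
      exact ⟨h2, h3⟩
    rw [h, Ideal.mem_span_singleton] at h4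
    exact om_dvd_pow_two d hπ ho (h4.mul_left 2)
  · intro hc
    obtain ⟨x, hx⟩ := exists_x d hπ hP h hn
    have h1 : -d.s - d.om x ∈ P := by
      have : d.s - d.om x ∈ cj d P := by rw [hc]; exact hx
      rw [mem_cj, map_sub, sg_s, sg_om] at this
      exact this
    have h2 : d.om (2 * x) ∈ P := by
      have := P.neg_mem (P.add_mem hx h1)
      convert this using 1
      rw [map_mul, map_ofNat]
      ring
    have h3 := (hπ.dvd_or_dvd ((om_mem d hπ h).1 h2)).resolve_left (not_dvd_two hπ ho)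
    have h4 : d.s ∈ P := by
      have := P.add_mem hx ((om_mem d hπ h).2 h3)
      rwa [sub_add_cancel] at this
    have h5 : d.om d.α ∈ P := by
      rw [← d.sq, pow_two]
      exact P.mul_mem_left _ h4
    exact (om_mem d hπ h).1 h5

/-- the primes above `π` -/
theorem loc (hN : S_NRM) {π : E} (hπ : Prime π) : Prime (Ideal.span {d.om π}) ∨
    ∃ P : Ideal (𝓞 L), Prime P ∧ P * cj d P = Ideal.span {d.om π} ∧ Ideal.absNorm P = nm π := by
  have hne : Ideal.span {d.om π} ≠ ⊤ := by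
    rw [Ne, Ideal.span_singleton_eq_top]
    intro h
    exact hπ.not_isUnit (isUnit_of_dvd_one (dvd_of_om d hπ.ne_zero (by
      rw [map_one]; exact h.dvd)))
  obtain ⟨P, hPm, hle⟩ := Ideal.exists_le_maximal _ hne
  have hP0 : P ≠ ⊥ := by
    rintro rfl
    exact span_om_ne d hπ.ne_zero (le_bot_iff.1 hle)
  have hP : Prime P := Ideal.prime_of_isPrime hP0 hPm.isPrime
  obtain ⟨a, ha, h1, h2⟩ := hN L d P hP0
  change P * cj d P = _ at h2
  have hd : P ∣ Ideal.span {d.om π} := Ideal.dvd_iff_le.2 hle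
  obtain ⟨Q, hQ⟩ := hd
  have hQ' : Ideal.span {d.om π} = cj d P * cj d Q := by
    rw [← cj_mul, ← hQ, cj_om]
  have h3 : Ideal.span {d.om a} ∣ Ideal.span {d.om (π ^ 2)} := by
    rw [← h2, pow_two, span_om_mul]
    exact mul_dvd_mul ⟨Q, hQ⟩ ⟨_, hQ'⟩
  obtain ⟨i, hi, hai⟩ := (dvd_prime_pow hπ 2).1 (dvd_of_span d ha h3)
  have h4 : P * cj d P = Ideal.span {d.om (π ^ i)} := by
    rw [h2]
    exact (span_eq_iff d ha (pow_ne_zero _ hπ.ne_zero)).2 hai
  interval_cases i
  · exfalso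
    rw [pow_zero, map_one, Ideal.span_singleton_one, ← Ideal.one_eq_top] at h4
    exact hP.not_isUnit (IsUnit.of_mul_eq_one _ h4)
  · rw [pow_one] at h4 hai
    exact Or.inr ⟨P, hP, h4, by rw [← h1, nm_assoc hai]⟩
  · left
    have h5 : P * cj d P * 1 = P * cj d P * (Q * cj d Q) := by
      rw [mul_one]
      conv_lhs => rw [h4, pow_two, span_om_mul, hQ]
      conv_lhs => rw [← hQ, hQ', ]
      conv_lhs => rw [← hQ', hQ]
      conv_lhs =>
        rw [← hQ]
        arg 2
        rw [hQ']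
      conv_lhs => rw [hQ]
      ring
    have hPP : P * cj d P ≠ 0 := mul_ne_zero hP0 (cj_prime d hP).ne_zero
    have h6 := mul_left_cancel₀ hPP h5
    have h7 : IsUnit Q := IsUnit.of_mul_eq_one _ h6.symm
    rw [hQ, Ideal.isUnit_iff.1 h7, Ideal.mul_top]
    exact hP

end Pool.Agent.K1H37.Q3
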